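import Pool.Agent.X308.O.Main

/-!
# The transcendental motive
-/

set_option autoImplicit false

universe u v w

namespace Pool.Agent.X308.O

open CategoryTheory Pool.Agent.H914 Pool.Agent.H914.VarClass Pool.Agent.H914.VarClass.Obj
  Pool.Agent.W492.BB Pool.Agent.W550.Corr Pool.Agent.TH133 Pool.Agent.Y148.BB Pool.Agent.X308.S

set_option linter.unusedSectionVars false

variable {k : Type u} [Field k] {𝒱 : VarClass k} {C : TheoryData.{u, v, 0} 𝒱 ℚ}
  [hC : IsChowProj C] {X Y Z : 𝒱.Obj}

include hC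

/-- Either the degree is unique or all Chow groups vanish. -/
lemma deg_unique_or : (∀ X : 𝒱.Obj, Subsingleton (C.A X)) ∨
    ∀ {X : 𝒱.Obj} {x : C.A X} {q r : ℚ}, HasDegree C x q → HasDegree C x r → q = r := by
  by_cases h : ∀ X : 𝒱.Obj, Subsingleton (C.A X)
  · exact Or.inl h
  · right
    intro X x q r hq hr
    by_contra hne
    apply h
    intro Y
    have h1 := (hq Y).1
    rw [(hr Y).1] at h1
    have h3 : (1 : C.A Y) = 0 := by
      have h5 : (q - r) • (1 : C.A Y) = 0 := by rw [sub_smul, h1, sub_self]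
      rw [← one_smul ℚ (1 : C.A Y), ← inv_mul_cancel₀ (sub_ne_zero.2 hne), mul_smul, h5,
        smul_zero]
    exact subsingleton_of_zero_eq_one h3.symm

variable (C) in
/-- Uniqueness of the degree. -/
def DegUnique : Prop := ∀ {X : 𝒱.Obj} {x : C.A X} {q r : ℚ}, HasDegree C x q →
  HasDegree C x r → q = r

lemma NumTrivial.comm {x y : C.A X} (h : NumTrivial C x) : HasDegree C (y * x) 0 := by
  have h1 := h y
  rwa [TheoryData.mul, ch_comm C] at h1

section basis

variable {r : ℕ} {p : Fin r → ℤ} {a b : Fin r → C.A X}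

lemma act_tproj {x : C.A X} {q : Fin r → ℚ} (hq : ∀ i, HasDegree C (a i * x) (q i)) :
    C.act (tproj C a b) x = x - ∑ i, q i • b i := by
  rw [tproj, C.act_sub, act_dg, act_sum]
  congr 1
  exact Finset.sum_congr rfl fun i _ => act_ext' (hq i)

lemma tp_tproj : tp C (tproj C a b) = tproj C b a := by
  rw [tproj, tproj, tp_sub, tp_dg, tp_sum]
  congr 1
  exact Finset.sum_congr rfl fun i _ => tp_ext _ _

lemma act_tp_tproj {x : C.A X} {q : Fin r → ℚ} (hq : ∀ i, HasDegree C (b i * x) (q i)) :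
    C.act (tp C (tproj C a b)) x = x - ∑ i, q i • a i := by
  rw [tp_tproj]
  exact act_tproj hq

variable (hB : IsNumBasis C p a b)

include hB

lemma basis_span (hu : DegUnique C) {x : C.A X} {q : Fin r → ℚ}
    (hq : ∀ i, HasDegree C (a i * x) (q i)) : NumTrivial C (x - ∑ i, q i • b i) := by
  obtain ⟨q', hq'⟩ := hB.span x
  have h1 : q = q' := by
    funext j
    have h2 : HasDegree C (a j * (x - ∑ i, q' i • b i)) (q j - q' j) := by
      rw [mul_sub, Finset.mul_sum]
      refine HasDegree.sub' (hq j) ?_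
      have h3 : q' j = ∑ i, q' i * (if j = i then 1 else 0) := by simp
      rw [h3]
      refine HasDegree.sum' _ fun i _ => ?_
      rw [mul_smul_comm]
      exact HasDegree.smul' _ (hB.dual j i)
    have h4 := hu h2 (NumTrivial.comm hq')
    linarith
  rw [h1]
  exact hq'

lemma numTrivial_act (hu : DegUnique C) (x : C.A X) : NumTrivial C (C.act (tproj C a b) x) := by
  choose q hq using fun i => exists_degree (C := C) (a i * x)
  rw [act_tproj hq]
  exact basis_span hB hu hq

lemma numTrivial_act_tp (hu : DegUnique C) (x : C.A X) :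
    NumTrivial C (C.act (tp C (tproj C a b)) x) := by
  choose s hs using fun i => exists_degree (C := C) (b i * x)
  rw [act_tp_tproj hs]
  intro y
  choose q hq using fun i => exists_degree (C := C) (a i * y)
  have h1 := basis_span hB hu hq
  have h2 : (x - ∑ i, s i • a i) * y = (x - ∑ i, s i • a i) * (y - ∑ j, q j • b j) +
      ∑ j, q j • ((x - ∑ i, s i • a i) * b j) := by
    rw [mul_sub (x - ∑ i, s i • a i), Finset.mul_sum]
    simp only [mul_smul_comm]
    abel
  have h3 : ∀ j, HasDegree C ((x - ∑ i, s i • a i) * b j) 0 := by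
    intro j
    rw [sub_mul, Finset.sum_mul, ← sub_self (s j)]
    refine HasDegree.sub' ?_ ?_
    · rw [ch_comm C]
      exact hs j
    · have h4 : s j = ∑ i, s i * (if i = j then 1 else 0) := by simp
      rw [h4]
      refine HasDegree.sum' _ fun i _ => ?_
      rw [smul_mul_assoc]
      exact HasDegree.smul' _ (hB.dual i j)
  rw [TheoryData.mul, h2]
  have h5 : (0 : ℚ) = 0 + ∑ j : Fin r, q j * 0 := by simp
  rw [h5]
  exact HasDegree.add' (NumTrivial.comm h1)
    (HasDegree.sum' _ fun j _ => HasDegree.smul' _ (h3 j))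

lemma act_tp_b (j : Fin r) : C.act (tp C (tproj C a b)) (a j) = 0 := by
  have h1 : ∀ i, HasDegree C (b i * a j) (if j = i then 1 else 0) := by
    intro i
    rw [ch_comm C]
    exact hB.dual j i
  rw [act_tp_tproj h1]
  simp

lemma act_b (j : Fin r) : C.act (tproj C a b) (b j) = 0 := by
  have h1 : ∀ i, HasDegree C (a i * b j) (if i = j then 1 else 0) := fun i => hB.dual i j
  rw [act_tproj h1]
  simp

lemma tproj_idem : C.comp (tproj C a b) (tproj C a b) = tproj C a b := by
  conv_lhs => rw [tproj, sub_comp, dg_comp]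
  rw [sum_comp]
  have h1 : ∀ i ∈ Finset.univ, C.comp (C.ext (a i) (b i)) (dg C X - ∑ i, C.ext (a i) (b i)) = 0 := by
    intro i _
    rw [ext_comp]
    have h2 := act_b hB i
    rw [tproj] at h2
    rw [h2, TheoryData.ext_zero_right]
  rw [Finset.sum_eq_zero h1, sub_zero, tproj]

lemma tproj_mem : tproj C a b ∈ C.gr (X.prod X) X.dim := by
  refine Submodule.sub_mem _ (dg_mem C X) (Submodule.sum_mem _ fun i _ => ?_)
  have h1 := ext_mem' (C := C) (hB.deg i).2 (hB.deg i).1
  rwa [sub_add_cancel] at h1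

end basis

/-- The correspondences which are sums of products of numerically trivial cycles. -/
inductive Sml : C.A (X.prod Y) → Prop
  | zero : Sml 0
  | ext (α : C.A X) (β : C.A Y) (hα : NumTrivial C α) (hβ : NumTrivial C β) : Sml (C.ext α β)
  | add (x y : C.A (X.prod Y)) (hx : Sml x) (hy : Sml y) : Sml (x + y)

lemma Sml.comp_eq {x : C.A (X.prod Y)} (hx : Sml x) {y : C.A (Y.prod Z)} (hy : Sml y) :
    C.comp x y = 0 := by
  induction hx with
  | zero => rw [zero_comp]
  | ext α β hα hβ =>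
    induction hy with
    | zero => rw [comp_zero]
    | ext γ δ hγ hδ =>
      have h1 : HasDegree C (β * γ) 0 := hβ γ
      rw [comp_ext_ext h1, zero_smul]
    | add x y _ _ hx hy => rw [comp_add, hx, hy, add_zero]
  | add x y _ _ hx hy => rw [add_comp, hx, hy, add_zero]

lemma sml_sandwich (hu : DegUnique C) {r s : ℕ} {p : Fin r → ℤ} {a b : Fin r → C.A X}
    {q : Fin s → ℤ} {a' b' : Fin s → C.A Y} (hB : IsNumBasis C p a b)
    (hB' : IsNumBasis C q a' b') {x : C.A (X.prod Y)} (hx : x ∈ Decomposable C X Y) :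
    Sml (C.comp (tproj C a b) (C.comp x (tproj C a' b'))) := by
  refine dec_induction
    (p := fun x => Sml (C.comp (tproj C a b) (C.comp x (tproj C a' b')))) ?_ ?_ ?_ hx
  · rw [zero_comp, comp_zero]
    exact Sml.zero
  · intro α β
    rw [ext_comp, comp_ext]
    exact Sml.ext _ _ (numTrivial_act_tp hB hu α) (numTrivial_act hB' hu β)
  · intro x y h h'
    rw [add_comp, comp_add]
    exact Sml.add _ _ h h'

/-- Isomorphisms up to decomposable correspondences give isomorphisms of the transcendental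
motives. -/
theorem corner (hu : DegUnique C) {r s : ℕ} {p : Fin r → ℤ} {a b : Fin r → C.A X}
    {q : Fin s → ℤ} {a' b' : Fin s → C.A Y} (hB : IsNumBasis C p a b)
    (hB' : IsNumBasis C q a' b') {n : ℤ} (hX : (X.dim : ℤ) = n) (hY : (Y.dim : ℤ) = n)
    {f : C.A (X.prod Y)} {g : C.A (Y.prod X)} (hf : f ∈ C.gr (X.prod Y) n)
    (hg : g ∈ C.gr (Y.prod X) n) (h : dg C X - C.comp f g ∈ Decomposable C X X)
    (h' : dg C Y - C.comp g f ∈ Decomposable C Y Y) :
    IsoMotives C (tproj C a b) (tproj C a' b') := by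
  set t := tproj C a b with ht
  set t' := tproj C a' b' with ht'
  have htt : C.comp t t = t := tproj_idem hB
  have htt' : C.comp t' t' = t' := tproj_idem hB'
  have htm : t ∈ C.gr (X.prod X) n := hX ▸ tproj_mem hB
  have htm' : t' ∈ C.gr (Y.prod Y) n := hY ▸ tproj_mem hB'
  set f' := C.comp t (C.comp f t') with hf'
  set g' := C.comp t' (C.comp g t) with hg'
  have hfm : f' ∈ C.gr (X.prod Y) n :=
    comp_deg htm (comp_deg hf htm' (j := n) (by omega)) (by omega)
  have hgm : g' ∈ C.gr (Y.prod X) n :=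
    comp_deg htm' (comp_deg hg htm (j := n) (by omega)) (by omega)
  have key : ∀ {X Y : 𝒱.Obj} {r s : ℕ} {p : Fin r → ℤ} {a b : Fin r → C.A X}
      {q : Fin s → ℤ} {a' b' : Fin s → C.A Y} (_ : IsNumBasis C p a b)
      (_ : IsNumBasis C q a' b') {f : C.A (X.prod Y)} {g : C.A (Y.prod X)}
      (_ : dg C X - C.comp f g ∈ Decomposable C X X),
      Sml (C.comp (tproj C a b) (C.comp (dg C X - C.comp (C.comp f (tproj C a' b')) g)
        (tproj C a b))) ∧
      C.comp (C.comp (tproj C a b) (C.comp f (tproj C a' b')))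
        (C.comp (tproj C a' b') (C.comp g (tproj C a b))) = tproj C a b -
          C.comp (tproj C a b) (C.comp (dg C X - C.comp (C.comp f (tproj C a' b')) g)
            (tproj C a b)) := by
    intro X Y r s p a b q a' b' hB hB' f g h
    constructor
    · apply sml_sandwich hu hB hB
      have h1 : dg C X - C.comp (C.comp f (tproj C a' b')) g =
          (dg C X - C.comp f g) + C.comp (C.comp f (∑ i, C.ext (a' i) (b' i))) g := by
        conv_lhs => rw [tproj, comp_sub, comp_dg, sub_comp]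
        abel
      rw [h1]
      refine Submodule.add_mem _ h (dec_comp (comp_dec f ?_) g)
      exact Submodule.sum_mem _ fun i _ => ext_mem_dec _ _
    · have e1 := tproj_idem hB
      have e2 := tproj_idem hB'
      rw [sub_comp, dg_comp, comp_sub, e1, sub_sub_cancel]
      conv_rhs => rw [← e2]
      simp only [comp_assoc]
  obtain ⟨k1, k2⟩ := key hB hB' h
  obtain ⟨k3, k4⟩ := key hB' hB h'
  set δ := C.comp t (C.comp (dg C X - C.comp (C.comp f t') g) t) with hδ
  set δ' := C.comp t' (C.comp (dg C Y - C.comp (C.comp g t) f) t') with hδ'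
  have hδδ : C.comp δ δ = 0 := k1.comp_eq k1
  have hδδ' : C.comp δ' δ' = 0 := k3.comp_eq k3
  have htδ : C.comp t δ = δ := by rw [hδ, ← comp_assoc, htt]
  have hδt : C.comp δ t = δ := by rw [hδ, comp_assoc, comp_assoc, htt]
  have htδ' : C.comp t' δ' = δ' := by rw [hδ', ← comp_assoc, htt']
  have hδt' : C.comp δ' t' = δ' := by rw [hδ', comp_assoc, comp_assoc, htt']
  have hδm : δ ∈ C.gr (X.prod X) n := by
    have h1 : C.comp f' g' = t - δ := k2
    have h2 : δ = t - C.comp f' g' := by rw [h1, sub_sub_cancel]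
    rw [h2]
    exact Submodule.sub_mem _ htm (comp_deg hfm hgm (by omega))
  have tf : C.comp t f' = f' := by rw [hf', ← comp_assoc, htt]
  have ft : C.comp f' t' = f' := by rw [hf', comp_assoc, comp_assoc, htt']
  have tg : C.comp t' g' = g' := by rw [hg', ← comp_assoc, htt']
  have gt : C.comp g' t = g' := by rw [hg', comp_assoc, comp_assoc, htt]
  have e1 : C.comp f' (C.comp g' (t + δ)) = t := by
    rw [← comp_assoc, show C.comp f' g' = t - δ from k2, comp_add, sub_comp, sub_comp, htt, hδt,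
      htδ, hδδ]
    abel
  have e2 : C.comp (C.comp (t' + δ') g') f' = t' := by
    rw [comp_assoc, show C.comp g' f' = t' - δ' from k4, comp_sub, add_comp, add_comp, htt',
      hδt', htδ', hδδ']
    abel
  have e3 : C.comp g' (t + δ) = C.comp (t' + δ') g' := by
    have e4 : C.comp t' (C.comp g' (t + δ)) = C.comp g' (t + δ) := by rw [← comp_assoc, tg]
    have e5 : C.comp (C.comp (t' + δ') g') t = C.comp (t' + δ') g' := by rw [comp_assoc, gt]
    calc C.comp g' (t + δ) = C.comp t' (C.comp g' (t + δ)) := e4.symm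
      _ = C.comp (C.comp (C.comp (t' + δ') g') f') (C.comp g' (t + δ)) := by rw [e2]
      _ = C.comp (C.comp (t' + δ') g') (C.comp f' (C.comp g' (t + δ))) := comp_assoc C _ _ _
      _ = C.comp (t' + δ') g' := by rw [e1, e5]
  refine ⟨f', C.comp g' (t + δ), hY ▸ hfm, ?_, ?_, ?_, e1, ?_⟩
  · rw [hX]
    exact comp_deg hgm (Submodule.add_mem _ htm hδm) (by omega)
  · rw [ft, tf]
  · have e6 : C.comp (t + δ) t = t + δ := by rw [add_comp, htt, hδt]
    rw [comp_assoc, e6, ← comp_assoc, tg]
  · rw [e3]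
    exact e2

section full

variable {r s : ℕ} {p : Fin r → ℤ} {a b : Fin r → C.A X} {q : Fin s → ℤ} {a' b' : Fin s → C.A Y}

/-- Adding the Lefschetz motives. -/
lemma full_aux (hB : IsNumBasis C p a b) (hB' : IsNumBasis C q a' b') (σ : Fin r ≃ Fin s)
    {u : C.A (X.prod Y)} {w : C.A (Y.prod X)} (hu : C.comp u (tproj C a' b') = u)
    (hw : C.comp (tproj C a' b') w = w) (h : C.comp u w = tproj C a b) :
    C.comp (u + ∑ i, C.ext (a i) (b' (σ i))) (w + ∑ i, C.ext (a' (σ i)) (b i)) = dg C X := by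
  have h1 : C.comp u (∑ i, C.ext (a' (σ i)) (b i)) = 0 := by
    rw [comp_sum]
    refine Finset.sum_eq_zero fun i _ => ?_
    rw [← hu, comp_assoc, comp_ext (tproj C a' b'), act_tp_b hB', TheoryData.ext_zero_left,
      comp_zero]
  have h2 : C.comp (∑ i, C.ext (a i) (b' (σ i))) w = 0 := by
    rw [sum_comp]
    refine Finset.sum_eq_zero fun i _ => ?_
    rw [← hw, ← comp_assoc, ext_comp, act_b hB', TheoryData.ext_zero_right, zero_comp]
  have h3 : C.comp (∑ i, C.ext (a i) (b' (σ i))) (∑ i, C.ext (a' (σ i)) (b i)) =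
      ∑ i, C.ext (a i) (b i) := by
    rw [sum_comp]
    refine Finset.sum_congr rfl fun i _ => ?_
    rw [comp_sum, Finset.sum_eq_single i]
    · have h4 := hB'.dual (σ i) (σ i)
      rw [if_pos rfl] at h4
      have h5 : HasDegree C (b' (σ i) * a' (σ i)) 1 := by rwa [ch_comm C]
      rw [comp_ext_ext h5, one_smul]
    · intro j _ hj
      have h4 := hB'.dual (σ j) (σ i)
      rw [if_neg (fun h => hj (σ.injective h))] at h4
      have h5 : HasDegree C (b' (σ i) * a' (σ j)) 0 := by rwa [ch_comm C]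
      rw [comp_ext_ext h5, zero_smul]
    · intro h
      exact absurd (Finset.mem_univ i) h
  rw [add_comp, comp_add, comp_add, h1, h2, h3, h, tproj]
  abel

theorem full (hB : IsNumBasis C p a b) (hB' : IsNumBasis C q a' b')
    (hd : Y.dim = X.dim) (σ : Fin r ≃ Fin s) (hσ : ∀ i, q (σ i) = p i)
    (h : IsoMotives C (tproj C a b) (tproj C a' b')) :
    IsoMotives C (dg C X) (dg C Y) := by
  obtain ⟨f, g, hf, hg, e1, e2, e3, e4⟩ := h
  have tf : C.comp (tproj C a b) f = f := by
    conv_lhs => rw [← e1, ← comp_assoc, tproj_idem hB, e1]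
  have ft : C.comp f (tproj C a' b') = f := by
    conv_lhs => rw [← e1, comp_assoc, comp_assoc, tproj_idem hB', e1]
  have tg : C.comp (tproj C a' b') g = g := by
    conv_lhs => rw [← e2, ← comp_assoc, tproj_idem hB', e2]
  have gt : C.comp g (tproj C a b) = g := by
    conv_lhs => rw [← e2, comp_assoc, comp_assoc, tproj_idem hB, e2]
  refine ⟨f + ∑ i, C.ext (a i) (b' (σ i)), g + ∑ i, C.ext (a' (σ i)) (b i), ?_, ?_, ?_, ?_,
    full_aux hB hB' σ ft tg e3, ?_⟩
  · refine Submodule.add_mem _ hf (Submodule.sum_mem _ fun i _ => ?_)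
    have h1 := ext_mem' (C := C) (hB.deg i).2 (hB'.deg (σ i)).1
    rw [hσ, sub_add_cancel] at h1
    rwa [hd]
  · refine Submodule.add_mem _ hg (Submodule.sum_mem _ fun i _ => ?_)
    have h1 := ext_mem' (C := C) (hB'.deg (σ i)).2 (hB.deg i).1
    rw [hσ, sub_add_cancel] at h1
    rwa [hd] at h1
  · rw [comp_dg, dg_comp]
  · rw [comp_dg, dg_comp]
  · have h1 := full_aux hB' hB σ.symm gt tf e4
    have h2 : ∑ i, C.ext (a' i) (b (σ.symm i)) = ∑ i, C.ext (a' (σ i)) (b i) := by
      rw [← Equiv.sum_comp σ]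
      simp
    have h3 : ∑ i, C.ext (a (σ.symm i)) (b' i) = ∑ i, C.ext (a i) (b' (σ i)) := by
      rw [← Equiv.sum_comp σ]
      simp
    rwa [h2, h3] at h1

end full

/-- Surfaces: the correspondences of low degree are decomposable. -/
theorem low_of_surfaces {Q : 𝒱.Obj → Prop} (hQ : DivisorsSplit C Q) {a : ℤ}
    (hd : Y.dim = X.dim) (hX : TatePlusSurfaces C Q a X) (hY : TatePlusSurfaces C Q a Y)
    (x : C.A (X.prod Y)) : LowDecomposable C X.dim x := by
  have key : ∀ i : ℤ, i < X.dim → C.gr (X.prod Y) i ≤ Decomposable C X Y := by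
    intro i hi z hz
    have h1 : Decomposable C X X ⊔ Submodule.span ℚ {x | ∃ (S : 𝒱.Obj) (δ : C.A (X.prod S))
        (γ : C.A (S.prod X)), S.dim = 2 ∧ Q S ∧ C.Deg (X.dim - a) δ ∧ C.Deg (2 + a) γ ∧
        x = C.comp δ γ} ≤ (Decomposable C X Y).comap ((compL C).flip z) := by
      refine sup_le (fun x hx => dec_comp hx z) (Submodule.span_le.2 ?_)
      rintro _ ⟨S, δ, γ, hS, hQS, hδ, hγ, rfl⟩
      change C.comp (C.comp δ γ) z ∈ Decomposable C X Y
      have h2 : Decomposable C Y Y ⊔ Submodule.span ℚ {x | ∃ (S : 𝒱.Obj) (δ : C.A (Y.prod S))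
          (γ : C.A (S.prod Y)), S.dim = 2 ∧ Q S ∧ C.Deg (Y.dim - a) δ ∧ C.Deg (2 + a) γ ∧
          x = C.comp δ γ} ≤
          (Decomposable C X Y).comap (compL C (C.comp (C.comp δ γ) z)) := by
        refine sup_le (fun x hx => comp_dec _ hx) (Submodule.span_le.2 ?_)
        rintro _ ⟨T, δ', γ', hT, hQT, hδ', hγ', rfl⟩
        change C.comp (C.comp (C.comp δ γ) z) (C.comp δ' γ') ∈ Decomposable C X Y
        have h3 : C.comp (C.comp (C.comp δ γ) z) (C.comp δ' γ') =
            C.comp δ (C.comp (C.comp γ (C.comp z δ')) γ') := by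
          simp only [comp_assoc]
        rw [h3]
        refine comp_dec _ (dec_comp ?_ _)
        have h4 : C.comp γ (C.comp z δ') ∈ C.gr (S.prod T) (2 + i - X.dim) :=
          comp_deg hγ (comp_deg hz hδ' (j := i - a) (by omega)) (by omega)
        rcases lt_trichotomy (2 + i - (X.dim : ℤ)) 0 with h5 | h5 | h5
        · rw [zero_of_neg h4 h5]
          exact Submodule.zero_mem _
        · rw [h5] at h4
          obtain ⟨q, hq⟩ := corr_zero h4
          rw [hq]
          exact Submodule.smul_mem _ _ (ext_mem_dec _ _)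
        · have h6 : 2 + i - (X.dim : ℤ) = 1 := by omega
          rw [h6] at h4
          exact hQ S T hQS hQT h4
      have h3 : C.comp (C.comp (C.comp δ γ) z) (dg C Y) ∈ Decomposable C X Y := h2 hY
      rwa [comp_dg] at h3
    have h2 : C.comp (dg C X) z ∈ Decomposable C X Y := h1 hX
    rwa [dg_comp] at h2
  have hx : x ∈ ⨆ i, C.gr (X.prod Y) i := by
    rw [(C.isInternal (X.prod Y)).submodule_iSup_eq_top]
    exact Submodule.mem_top
  have h1 : ⨆ i, C.gr (X.prod Y) i ≤ Hi C X Y X.dim := by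
    refine iSup_le fun i => ?_
    by_cases hi : i < X.dim
    · exact le_trans (key i hi) dec_le_hi
    · exact gr_le_hi (by omega)
  exact h1 hx

lemma isoMotives_of_subsingleton (h : ∀ X : 𝒱.Obj, Subsingleton (C.A X)) (e : C.A (X.prod X))
    (e' : C.A (Y.prod Y)) : IsoMotives C e e' :=
  ⟨0, 0, Submodule.zero_mem _, Submodule.zero_mem _, (h _).elim _ _, (h _).elim _ _,
    (h _).elim _ _, (h _).elim _ _⟩

omit hC in
lemma exists_equiv {r s : ℕ} {p : Fin r → ℤ} {q : Fin s → ℤ} (h : SameRanks p q) :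
    ∃ σ : Fin r ≃ Fin s, ∀ i, q (σ i) = p i := by
  have e : ∀ m : ℤ, {i // p i = m} ≃ {i // q i = m} := fun m =>
    (Finite.equivFin _).trans ((finCongr (h m)).trans (Finite.equivFin _).symm)
  refine ⟨(Equiv.sigmaFiberEquiv p).symm.trans
    ((Equiv.sigmaCongrRight e).trans (Equiv.sigmaFiberEquiv q)), fun i => ?_⟩
  exact (e (p i) ⟨i, rfl⟩).2

theorem orlov (hd : Y.dim = X.dim) {v : C.A (X.prod Y)} {w : C.A (Y.prod X)}
    (h : AreInverse C v w) {r s : ℕ} {p : Fin r → ℤ} {a b : Fin r → C.A X}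
    (hB : IsNumBasis C p a b) {q : Fin s → ℤ} {a' b' : Fin s → C.A Y}
    (hB' : IsNumBasis C q a' b') (hv : LowDecomposable C X.dim v)
    (hw : LowDecomposable C X.dim w) :
    IsoMotives C (tproj C a b) (tproj C a' b') ∧
      (SameRanks p q → IsoMotives C (dg C X) (dg C Y)) := by
  rcases deg_unique_or (C := C) with h1 | hu
  · exact ⟨isoMotives_of_subsingleton h1 _ _, fun _ => isoMotives_of_subsingleton h1 _ _⟩
  · obtain ⟨f, hf, g, hg, e1, e2⟩ := exists_top (n := X.dim) rfl (by rw [hd]) hv hw h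
    have h2 := corner hu hB hB' (n := X.dim) rfl (by rw [hd]) hf hg e1 e2
    refine ⟨h2, fun hr => ?_⟩
    obtain ⟨σ, hσ⟩ := exists_equiv hr
    exact full hB hB' hd σ hσ h2

end Pool.Agent.X308.O
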