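import Pool.Agent.TH133.Defs

/-!
# Decomposable correspondences and ungraded isomorphisms: definitions
-/

set_option autoImplicit false

universe u v w

namespace Pool.Agent.X308.O

open Pool.Agent.H914 Pool.Agent.W492.BB Pool.Agent.W550.Corr Pool.Agent.TH133

variable {k : Type u} [Field k] {𝒱 : VarClass k} (C : TheoryData.{u, v, 0} 𝒱 ℚ)

/-- The decomposable correspondences from `X` to `Y`: the sums of products `α × β` of cycles. -/
noncomputable def Decomposable (X Y : 𝒱.Obj) : Submodule ℚ (C.A (X.prod Y)) :=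
  Submodule.span ℚ {x | ∃ (i j : ℤ) (α : C.A X) (β : C.A Y), C.Deg i α ∧ C.Deg j β ∧
    x = C.ext α β}

/-- The components of `x ∈ CH^*(X × Y)` of codimension less than `n` are decomposable. -/
def LowDecomposable (n : ℕ) {X Y : 𝒱.Obj} (x : C.A (X.prod Y)) : Prop :=
  x ∈ Decomposable C X Y ⊔ ⨆ i : ℤ, ⨆ _ : (n : ℤ) ≤ i, C.gr (X.prod Y) i

/-- The correspondences `v ∈ CH^*(X × Y)` and `w ∈ CH^*(Y × X)`, of mixed degrees, are inverse to
each other. -/
def AreInverse {X Y : 𝒱.Obj} (v : C.A (X.prod Y)) (w : C.A (Y.prod X)) : Prop :=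
  C.comp v w = dg C X ∧ C.comp w v = dg C Y

/-- The cycle `x` on `X` is numerically trivial: `deg (x · y) = 0` for all `y`. -/
def NumTrivial {X : 𝒱.Obj} (x : C.A X) : Prop := ∀ y : C.A X, HasDegree C (C.mul x y) 0

/-- The cycles `b i ∈ CH^(p i)(X)` form a basis of the cycles on `X` modulo numerical equivalence,
with dual basis `a i ∈ CH^(dim X - p i)(X)`. -/
structure IsNumBasis {X : 𝒱.Obj} {r : ℕ} (p : Fin r → ℤ) (a b : Fin r → C.A X) : Prop where
  deg : ∀ i, C.Deg (p i) (b i) ∧ C.Deg (X.dim - p i) (a i)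
  dual : ∀ i j, HasDegree C (C.mul (a i) (b j)) (if i = j then 1 else 0)
  span : ∀ x : C.A X, ∃ q : Fin r → ℚ, NumTrivial C (x - ∑ i, q i • b i)

/-- The projector `Δ_X - ∑ a i × b i` onto the transcendental motive `t(X)` of `X`, the complement
of a maximal direct sum of Lefschetz motives in the motive of `X`. -/
noncomputable def tproj {X : 𝒱.Obj} {r : ℕ} (a b : Fin r → C.A X) : C.A (X.prod X) :=
  dg C X - ∑ i, C.ext (a i) (b i)

/-- The Chow motives `(X, e)` and `(Y, e')` are isomorphic, `X` and `Y` of the same dimension and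
`e`, `e'` idempotent. -/
def IsoMotives {X Y : 𝒱.Obj} (e : C.A (X.prod X)) (e' : C.A (Y.prod Y)) : Prop :=
  ∃ (f : C.A (X.prod Y)) (g : C.A (Y.prod X)), C.Deg Y.dim f ∧ C.Deg X.dim g ∧
    C.comp e (C.comp f e') = f ∧ C.comp e' (C.comp g e) = g ∧
    C.comp f g = e ∧ C.comp g f = e'

/-- The varieties whose motive is the sum of Lefschetz motives and of a direct summand of
`h(S)(-a)`, `S` a sum of surfaces with a property `Q`: the diagonal of `X` is a sum of products
`α × β` and of compositions `X → S → X` of correspondences of degrees `-a` and `a` through surfaces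
`S`. -/
def TatePlusSurfaces (Q : 𝒱.Obj → Prop) (a : ℤ) (X : 𝒱.Obj) : Prop :=
  dg C X ∈ Decomposable C X X ⊔ Submodule.span ℚ {x | ∃ (S : 𝒱.Obj) (δ : C.A (X.prod S))
    (γ : C.A (S.prod X)), S.dim = 2 ∧ Q S ∧ C.Deg (X.dim - a) δ ∧ C.Deg (2 + a) γ ∧
    x = C.comp δ γ}

/-- All divisors on the products `S × T` of surfaces with the property `Q` are sums of pull-backs of
divisors from `S` and `T` (this holds for the surfaces with `b_1 = 0`). -/
def DivisorsSplit (Q : 𝒱.Obj → Prop) : Prop :=
  ∀ S T : 𝒱.Obj, Q S → Q T → C.gr (S.prod T) 1 ≤ Decomposable C S T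

/-- The ranks of `CH^m(X)` and `CH^m(Y)` modulo numerical equivalence, read off from bases with
degrees `p` and `q`, agree for all `m`. -/
def SameRanks {r s : ℕ} (p : Fin r → ℤ) (q : Fin s → ℤ) : Prop :=
  ∀ m : ℤ, Nat.card {i // p i = m} = Nat.card {i // q i = m}

end Pool.Agent.X308.O
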