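import Pool.Agent.X308.O.Defs
import Pool.Agent.X308.S.Key
import Pool.Agent.X308.A.Pair

/-!
# Ungraded isomorphisms of Chow motives
-/

set_option autoImplicit false

universe u v w

namespace Pool.Agent.X308.O

open CategoryTheory Pool.Agent.H914 Pool.Agent.H914.VarClass Pool.Agent.H914.VarClass.Obj
  Pool.Agent.W492.BB Pool.Agent.W550.Corr Pool.Agent.TH133 Pool.Agent.Y148.BB Pool.Agent.X308.S

set_option linter.unusedSectionVars false

variable {k : Type u} [Field k] {𝒱 : VarClass k} {C : TheoryData.{u, v, 0} 𝒱 ℚ}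
  [hC : IsChowProj C] {X Y Z : 𝒱.Obj}

include hC

section degree

lemma HasDegree.add' {x y : C.A X} {q r : ℚ} (hx : HasDegree C x q) (hy : HasDegree C y r) :
    HasDegree C (x + y) (q + r) := by
  intro Y
  rw [map_add, map_add, map_add, map_add, (hx Y).1, (hy Y).1, (hx Y).2, (hy Y).2, add_smul]
  exact ⟨rfl, rfl⟩

lemma HasDegree.smul' {x : C.A X} {q : ℚ} (c : ℚ) (hx : HasDegree C x q) :
    HasDegree C (c • x) (c * q) := by
  intro Y
  rw [map_smul, map_smul, map_smul, map_smul, (hx Y).1, (hx Y).2, smul_smul]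
  exact ⟨rfl, rfl⟩

lemma HasDegree.sub' {x y : C.A X} {q r : ℚ} (hx : HasDegree C x q) (hy : HasDegree C y r) :
    HasDegree C (x - y) (q - r) := by
  have h := HasDegree.add' hx (HasDegree.smul' (-1) hy)
  rwa [neg_one_smul, ← sub_eq_add_neg, neg_one_mul, ← sub_eq_add_neg] at h

lemma HasDegree.sum' {ι : Type*} (s : Finset ι) {f : ι → C.A X} {q : ι → ℚ}
    (h : ∀ i ∈ s, HasDegree C (f i) (q i)) : HasDegree C (∑ i ∈ s, f i) (∑ i ∈ s, q i) := by
  classical
  induction s using Finset.induction_on with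
  | empty => rw [Finset.sum_empty, Finset.sum_empty]; exact hasDegree_zero
  | insert a s ha ih =>
    rw [Finset.sum_insert ha, Finset.sum_insert ha]
    exact HasDegree.add' (h a (Finset.mem_insert_self _ _))
      (ih fun i hi => h i (Finset.mem_insert_of_mem hi))

/-- Homogeneous cycles which are not zero-cycles have degree zero. -/
lemma hasDegree_of_ne {x : C.A X} {i : ℤ} (hx : x ∈ C.gr X i) (hi : i ≠ X.dim) :
    HasDegree C x 0 := by
  intro Y
  rw [zero_smul]
  rcases lt_or_gt_of_ne hi with h | h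
  · constructor
    · have h2 := C.push_mem (snd X Y) (C.pull_mem (fst X Y) hx)
      rw [C.gr_neg Y _ (by rw [dim_prod]; push_cast; omega)] at h2
      exact (Submodule.mem_bot _).1 h2
    · have h2 := C.push_mem (fst Y X) (C.pull_mem (snd Y X) hx)
      rw [C.gr_neg Y _ (by rw [dim_prod]; push_cast; omega)] at h2
      exact (Submodule.mem_bot _).1 h2
  · rw [zero_of_top hx h, map_zero, map_zero, map_zero, map_zero]
    exact ⟨rfl, rfl⟩

lemma exists_degree (x : C.A X) : ∃ q, HasDegree C x q := by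
  have hx : x ∈ ⨆ i, C.gr X i := by
    rw [(C.isInternal X).submodule_iSup_eq_top]
    exact Submodule.mem_top
  induction hx using Submodule.iSup_induction' with
  | mem i x hx =>
    by_cases hi : i = X.dim
    · exact exists_hasDegree (hi ▸ hx)
    · exact ⟨0, hasDegree_of_ne hx hi⟩
  | zero => exact ⟨0, hasDegree_zero⟩
  | add x y _ _ hx hy =>
    obtain ⟨q, hq⟩ := hx
    obtain ⟨r, hr⟩ := hy
    exact ⟨q + r, HasDegree.add' hq hr⟩

end degree

section decomposable

lemma ext_mem_dec (α : C.A X) (β : C.A Y) : C.ext α β ∈ Decomposable C X Y := by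
  have hα : α ∈ ⨆ i, C.gr X i := by
    rw [(C.isInternal X).submodule_iSup_eq_top]
    exact Submodule.mem_top
  have hβ : β ∈ ⨆ i, C.gr Y i := by
    rw [(C.isInternal Y).submodule_iSup_eq_top]
    exact Submodule.mem_top
  induction hα using Submodule.iSup_induction' with
  | mem i α hα =>
    induction hβ using Submodule.iSup_induction' with
    | mem j β hβ => exact Submodule.subset_span ⟨i, j, α, β, hα, hβ, rfl⟩
    | zero => rw [TheoryData.ext_zero_right]; exact Submodule.zero_mem _
    | add x y _ _ hx hy =>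
      have h : C.ext α (x + y) = C.ext α x + C.ext α y := by
        rw [TheoryData.ext, map_add, mul_add]
        rfl
      rw [h]
      exact Submodule.add_mem _ hx hy
  | zero => rw [TheoryData.ext_zero_left]; exact Submodule.zero_mem _
  | add x y _ _ hx hy =>
    have h : C.ext (x + y) β = C.ext x β + C.ext y β := by
      rw [TheoryData.ext, map_add, add_mul]
      rfl
    rw [h]
    exact Submodule.add_mem _ hx hy

lemma dec_induction {p : C.A (X.prod Y) → Prop} (h0 : p 0) (h1 : ∀ α β, p (C.ext α β))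
    (h2 : ∀ x y, p x → p y → p (x + y)) {x : C.A (X.prod Y)} (hx : x ∈ Decomposable C X Y) :
    p x := by
  refine Submodule.closure_induction (p := fun x _ => p x) h0 (fun x y _ _ => h2 x y) ?_ hx
  rintro q _ ⟨i, j, α, β, _, _, rfl⟩
  have h : q • C.ext α β = C.ext (q • α) β := by
    rw [TheoryData.ext, TheoryData.ext, map_smul, smul_mul_assoc]
  rw [h]
  exact h1 _ _

lemma dec_comp {x : C.A (X.prod Y)} (hx : x ∈ Decomposable C X Y) (y : C.A (Y.prod Z)) :
    C.comp x y ∈ Decomposable C X Z := by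
  refine dec_induction (p := fun x => C.comp x y ∈ Decomposable C X Z) ?_ ?_ ?_ hx
  · rw [zero_comp]
    exact Submodule.zero_mem _
  · intro α β
    rw [ext_comp]
    exact ext_mem_dec _ _
  · intro x x' h h'
    rw [add_comp]
    exact Submodule.add_mem _ h h'

lemma comp_dec (y : C.A (X.prod Y)) {x : C.A (Y.prod Z)} (hx : x ∈ Decomposable C Y Z) :
    C.comp y x ∈ Decomposable C X Z := by
  refine dec_induction (p := fun x => C.comp y x ∈ Decomposable C X Z) ?_ ?_ ?_ hx
  · rw [comp_zero]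
    exact Submodule.zero_mem _
  · intro α β
    rw [comp_ext]
    exact ext_mem_dec _ _
  · intro x x' h h'
    rw [comp_add]
    exact Submodule.add_mem _ h h'

variable (C) in
/-- Components of degree less than `n` decomposable. -/
noncomputable def Hi (X Y : 𝒱.Obj) (n : ℤ) : Submodule ℚ (C.A (X.prod Y)) :=
  Decomposable C X Y ⊔ ⨆ i : ℤ, ⨆ _ : n ≤ i, C.gr (X.prod Y) i

lemma gr_le_hi {n i : ℤ} (h : n ≤ i) : C.gr (X.prod Y) i ≤ Hi C X Y n :=
  le_sup_of_le_right (le_iSup₂_of_le i h le_rfl)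

lemma dec_le_hi {n : ℤ} : Decomposable C X Y ≤ Hi C X Y n := le_sup_left

lemma hi_comp {n a b c : ℤ} (hn : (Y.dim : ℤ) = n) (hc : c ≤ a + b - n) {x : C.A (X.prod Y)}
    (hx : x ∈ Hi C X Y a) {y : C.A (Y.prod Z)} (hy : y ∈ Hi C Y Z b) :
    C.comp x y ∈ Hi C X Z c := by
  have h1 : Hi C X Y a ≤ (Hi C X Z c).comap ((compL C).flip y) := by
    refine sup_le ?_ (iSup₂_le fun i hi => ?_)
    · intro x hx
      exact dec_le_hi (dec_comp hx y)
    · intro x hx
      have h2 : Hi C Y Z b ≤ (Hi C X Z c).comap (compL C x) := by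
        refine sup_le ?_ (iSup₂_le fun j hj => ?_)
        · intro y hy
          exact dec_le_hi (comp_dec x hy)
        · intro y hy
          exact gr_le_hi (by omega) (comp_deg hx hy (j := i + j - Y.dim) rfl)
      exact h2 hy
  exact h1 hx

lemma hi_split {n : ℤ} {x : C.A (X.prod Y)} (hx : x ∈ Hi C X Y n) :
    ∃ f ∈ C.gr (X.prod Y) n, x - f ∈ Hi C X Y (n + 1) := by
  have h1 : Hi C X Y n ≤ C.gr (X.prod Y) n ⊔ Hi C X Y (n + 1) := by
    refine sup_le (le_sup_of_le_right dec_le_hi) (iSup₂_le fun i hi => ?_)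
    rcases eq_or_lt_of_le hi with h | h
    · rw [h]
      exact le_sup_left
    · exact le_sup_of_le_right (gr_le_hi (by omega))
  obtain ⟨f, hf, y, hy, rfl⟩ := Submodule.mem_sup.1 (h1 hx)
  exact ⟨f, hf, by rwa [add_sub_cancel_left]⟩

lemma dec_of_gr_hi {n m : ℤ} (hm : n < m) {x : C.A (X.prod Y)} (hx : x ∈ C.gr (X.prod Y) n)
    (hx' : x ∈ Hi C X Y m) : x ∈ Decomposable C X Y := by
  set N : Submodule ℚ (C.A (X.prod Y)) := ⨆ i : ℤ, ⨆ _ : i ≠ n, C.gr (X.prod Y) i with hN
  have h1 : Hi C X Y m ≤ (Decomposable C X Y ⊓ C.gr (X.prod Y) n) ⊔ N := by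
    refine sup_le ?_ (iSup₂_le fun i hi => le_sup_of_le_right (le_iSup₂_of_le i (by omega) le_rfl))
    refine Submodule.span_le.2 ?_
    rintro _ ⟨i, j, α, β, hα, hβ, rfl⟩
    have h2 := ext_mem' (C := C) hα hβ
    by_cases h : i + j = n
    · refine Submodule.mem_sup_left ⟨ext_mem_dec _ _, ?_⟩
      rw [← h]
      exact h2
    · exact Submodule.mem_sup_right (Submodule.mem_iSup_of_mem _ (Submodule.mem_iSup_of_mem h h2))
  obtain ⟨d, ⟨hd, hd'⟩, y, hy, h2⟩ := Submodule.mem_sup.1 (h1 hx')
  have h3 := (C.isInternal (X.prod Y)).submodule_iSupIndep n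
  have h4 : y ∈ C.gr (X.prod Y) n := by
    have : y = x - d := by rw [← h2, add_sub_cancel_left]
    rw [this]
    exact Submodule.sub_mem _ hx hd'
  have h5 : y = 0 := Submodule.disjoint_def.1 h3 y h4 hy
  rw [h5, add_zero] at h2
  rwa [← h2]

/-- The components of degree `n` of inverse correspondences are inverse to each other up to
decomposable correspondences. -/
lemma exists_top {n : ℤ} (hX : (X.dim : ℤ) = n) (hY : (Y.dim : ℤ) = n) {v : C.A (X.prod Y)}
    {w : C.A (Y.prod X)} (hv : v ∈ Hi C X Y n) (hw : w ∈ Hi C Y X n) (h : AreInverse C v w) :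
    ∃ f ∈ C.gr (X.prod Y) n, ∃ g ∈ C.gr (Y.prod X) n,
      dg C X - C.comp f g ∈ Decomposable C X X ∧ dg C Y - C.comp g f ∈ Decomposable C Y Y := by
  obtain ⟨f, hf, hf'⟩ := hi_split hv
  obtain ⟨g, hg, hg'⟩ := hi_split hw
  refine ⟨f, hf, g, hg, ?_, ?_⟩
  · have h1 : dg C X - C.comp f g = C.comp (v - f) w + C.comp f (w - g) := by
      rw [← h.1, sub_comp, comp_sub]
      abel
    apply dec_of_gr_hi (n := n) (m := n + 1) (by omega)
    · exact Submodule.sub_mem _ (hX ▸ dg_mem C X) (comp_deg hf hg (by omega))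
    · rw [h1]
      exact Submodule.add_mem _ (hi_comp hY (by omega) hf' hw)
        (hi_comp hY (by omega) (gr_le_hi le_rfl hf) hg')
  · have h1 : dg C Y - C.comp g f = C.comp (w - g) v + C.comp g (v - f) := by
      rw [← h.2, sub_comp, comp_sub]
      abel
    apply dec_of_gr_hi (n := n) (m := n + 1) (by omega)
    · exact Submodule.sub_mem _ (hY ▸ dg_mem C Y) (comp_deg hg hf (by omega))
    · rw [h1]
      exact Submodule.add_mem _ (hi_comp hX (by omega) hg' hv)
        (hi_comp hX (by omega) (gr_le_hi le_rfl hg) hf')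

end decomposable

end Pool.Agent.X308.O
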